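import Pool.Agent.Y522.Stm
import Pool.Agent.Helper514.IoD

/-!
# The interior of a manifold with boundary as a manifold without boundary (project SH)
-/

set_option autoImplicit false

open Set Filter Topology Metric Function
open scoped Manifold ContDiff

noncomputable section

namespace Pool.Agent.Y833.SH

section general

variable {E H : Type*} [NormedAddCommGroup E] [NormedSpace ℝ E] [TopologicalSpace H]
  (I : ModelWithCorners ℝ E H) {M : Type*} [TopologicalSpace M] [ChartedSpace H M]

theorem mem_int_iff [IsManifold I ∞ M] {e : OpenPartialHomeomorph M H} (he : e ∈ atlas H M) {y : M}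
    (hy : y ∈ e.source) : y ∈ I.interior M ↔ e.extend I y ∈ interior (e.extend I).target :=
  I.isInteriorPoint_iff_of_mem_atlas (n := ∞) (by simp) he hy

theorem isOpen_int [IsManifold I ∞ M] : IsOpen (I.interior M) :=
  I.isOpen_interior (n := ∞) (by simp)

/-- the chart of the interior -/
def ch [IsManifold I ∞ M] (e : OpenPartialHomeomorph M H) (he : e ∈ atlas H M)
    (x₀ : I.interior M) : OpenPartialHomeomorph (I.interior M) E where
  toFun y := e.extend I y.1
  invFun z := by
    classical
    exact if h : z ∈ interior (e.extend I).target then ⟨(e.extend I).symm z, by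
      have h1 : z ∈ (e.extend I).target := interior_subset h
      have h2 : (e.extend I).symm z ∈ e.source := by
        have := (e.extend I).map_target h1
        rwa [e.extend_source] at this
      rw [mem_int_iff I he h2, (e.extend I).right_inv h1]
      exact h⟩ else x₀
  source := {y | y.1 ∈ e.source}
  target := interior (e.extend I).target
  map_source' y hy := (mem_int_iff I he hy).1 y.2
  map_target' z hz := by
    rw [dif_pos hz]
    have := (e.extend I).map_target (interior_subset hz)
    rwa [e.extend_source] at this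
  left_inv' y hy := by
    have h1 : e.extend I y.1 ∈ interior (e.extend I).target := (mem_int_iff I he hy).1 y.2
    rw [dif_pos h1]
    refine Subtype.ext ?_
    exact (e.extend I).left_inv (by rw [e.extend_source]; exact hy)
  right_inv' z hz := by
    rw [dif_pos hz]
    exact (e.extend I).right_inv (interior_subset hz)
  open_source := e.open_source.preimage continuous_subtype_val
  open_target := isOpen_interior
  continuousOn_toFun := e.continuousOn_extend.comp continuous_subtype_val.continuousOn fun y hy => by
    rw [e.extend_source]; exact hy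
  continuousOn_invFun := by
    rw [Topology.IsInducing.subtypeVal.continuousOn_iff]
    refine (e.continuousOn_extend_symm.mono interior_subset).congr fun z hz => ?_
    simp only [comp_apply]
    rw [dif_pos hz]

theorem ch_apply [IsManifold I ∞ M] (e : OpenPartialHomeomorph M H) (he : e ∈ atlas H M)
    (x₀ y : I.interior M) : ch I e he x₀ y = e.extend I y.1 := rfl

theorem ch_symm_apply [IsManifold I ∞ M] (e : OpenPartialHomeomorph M H) (he : e ∈ atlas H M)
    (x₀ : I.interior M) {z : E} (hz : z ∈ interior (e.extend I).target) :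
    ((ch I e he x₀).symm z).1 = (e.extend I).symm z := by
  change ((ch I e he x₀).invFun z).1 = _
  unfold ch
  simp only
  rw [dif_pos hz]

/-- the charted space structure on the interior -/
def csI [IsManifold I ∞ M] : ChartedSpace E (I.interior M) where
  atlas := {c | ∃ (e : OpenPartialHomeomorph M H) (he : e ∈ atlas H M) (x₀ : I.interior M),
    c = ch I e he x₀}
  chartAt x := ch I (chartAt H x.1) (chart_mem_atlas _ _) x
  mem_chart_source x := mem_chart_source H x.1
  chart_mem_atlas x := ⟨_, chart_mem_atlas _ _, x, rfl⟩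

theorem mfI [IsManifold I ∞ M] : @IsManifold ℝ _ E _ _ E _ 𝓘(ℝ, E) ∞ (I.interior M) _ (csI I) := by
  let := csI (M := M) I
  refine isManifold_of_contDiffOn 𝓘(ℝ, E) ∞ (I.interior M) ?_
  rintro c c' ⟨e, he, x₀, rfl⟩ ⟨e', he', x₀', rfl⟩
  have h1 := I.contDiffOn_extendCoordChange (IsManifold.subset_maximalAtlas (n := ∞) he)
    (IsManifold.subset_maximalAtlas (I := I) (n := ∞) he')
  refine (h1.mono ?_).congr ?_
  · rintro z ⟨⟨hz0, hz2⟩, -⟩
    have hz1 : z ∈ interior (e.extend I).target := hz0
    refine ⟨interior_subset hz1, ?_⟩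
    have hz2' : ((ch I e he x₀).symm z).1 ∈ e'.source := hz2
    rw [ch_symm_apply I e he x₀ hz1] at hz2'
    show (e.extend I).symm z ∈ (e'.extend I).source
    rw [e'.extend_source]
    exact hz2'
  · rintro z ⟨⟨hz0, hz2⟩, -⟩
    have hz1 : z ∈ interior (e.extend I).target := hz0
    show e'.extend I ((ch I e he x₀).symm z).1 = e'.extend I ((e.extend I).symm z)
    rw [ch_symm_apply I e he x₀ hz1]

theorem contMDiff_val [IsManifold I ∞ M] :
    @ContMDiff ℝ _ E _ _ E _ 𝓘(ℝ, E) (I.interior M) _ (csI I) E _ _ H _ I M _ _ ∞
      (Subtype.val : I.interior M → M) := by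
  let := csI (M := M) I
  have := mfI (M := M) I
  intro x
  set e := chartAt H x.1 with he
  have hx : x.1 ∈ e.source := mem_chart_source H x.1
  have hxi : e.extend I x.1 ∈ interior (e.extend I).target :=
    (mem_int_iff I (chart_mem_atlas H x.1) hx).1 x.2
  have h1 : ContMDiffAt 𝓘(ℝ, E) 𝓘(ℝ, E) ∞ (chartAt E x) x :=
    contMDiffOn_chart.contMDiffAt ((chartAt E x).open_source.mem_nhds (mem_chart_source E x))
  have h2 : ContMDiffAt 𝓘(ℝ, E) I ∞ (e.extend I).symm (chartAt E x x) := by
    refine (contMDiffOn_extend_symm (IsManifold.chart_mem_maximalAtlas (I := I) x.1)).contMDiffAt ?_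
    have : I '' (chartAt H x.1).target = (e.extend I).target := by
      rw [e.extend_target, I.image_eq]
    rw [this]
    exact mem_interior_iff_mem_nhds.1 hxi
  refine (h2.comp x h1).congr_of_eventuallyEq ?_
  filter_upwards [(chartAt E x).open_source.mem_nhds (mem_chart_source E x)] with y hy
  have hy' : y.1 ∈ e.source := hy
  show y.1 = (e.extend I).symm (e.extend I y.1)
  exact ((e.extend I).left_inv (by rw [e.extend_source]; exact hy')).symm

open Classical in
/-- the inverse of the inclusion -/
def gI (x₀ : I.interior M) (m : M) : I.interior M := if h : m ∈ I.interior M then ⟨m, h⟩ else x₀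

theorem contMDiffOn_gI [IsManifold I ∞ M] (x₀ : I.interior M) :
    @ContMDiffOn ℝ _ E _ _ H _ I M _ _ E _ _ E _ 𝓘(ℝ, E) (I.interior M) _ (csI I) ∞
      (gI I x₀) (I.interior M) := by
  let := csI (M := M) I
  have := mfI (M := M) I
  intro m hm
  refine ContMDiffAt.contMDiffWithinAt ?_
  set x : I.interior M := ⟨m, hm⟩ with hxdef
  set e := chartAt H m with he
  have hx : m ∈ e.source := mem_chart_source H m
  have hxi : e.extend I m ∈ interior (e.extend I).target :=
    (mem_int_iff I (chart_mem_atlas H m) hx).1 hm
  have h1 : ContMDiffAt I 𝓘(ℝ, E) ∞ (e.extend I) m :=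
    e.contMDiffAt_extend (IsManifold.chart_mem_maximalAtlas (I := I) m) hx
  have h2 : ContMDiffAt 𝓘(ℝ, E) 𝓘(ℝ, E) ∞ (chartAt E x).symm (e.extend I m) :=
    contMDiffOn_chart_symm.contMDiffAt ((chartAt E x).open_target.mem_nhds hxi)
  refine (h2.comp m h1).congr_of_eventuallyEq ?_
  filter_upwards [e.open_source.mem_nhds hx, (isOpen_int I).mem_nhds hm] with y hy hy'
  have hyi : e.extend I y ∈ interior (e.extend I).target :=
    (mem_int_iff I (chart_mem_atlas H m) hy).1 hy'
  have h3 : gI I x₀ y = ⟨y, hy'⟩ := dif_pos hy'
  rw [h3]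
  refine Subtype.ext ?_
  show y = ((ch I e (chart_mem_atlas H m) x).symm (e.extend I y)).1
  rw [ch_symm_apply I e (chart_mem_atlas H m) x hyi]
  exact ((e.extend I).left_inv (by rw [e.extend_source]; exact hy)).symm

theorem ldiff_val [IsManifold I ∞ M] (x : I.interior M) :
    @IsLocalDiffeomorphAt ℝ _ E _ _ E _ _ E _ H _ 𝓘(ℝ, E) I (I.interior M) _ (csI I) M _ _ ∞
      (Subtype.val : I.interior M → M) x := by
  let := csI (M := M) I
  have := mfI (M := M) I
  refine ⟨{ toFun := Subtype.val, invFun := gI I x, source := univ, target := I.interior M,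
            map_source' := fun y _ => y.2, map_target' := fun _ _ => mem_univ _,
            left_inv' := fun y _ => ?_, right_inv' := fun m hm => ?_,
            open_source := isOpen_univ, open_target := isOpen_int I,
            contMDiffOn_toFun := (contMDiff_val I).contMDiffOn,
            contMDiffOn_invFun := contMDiffOn_gI I x }, mem_univ _, fun _ _ => rfl⟩
  · exact dif_pos y.2
  · show (gI I x m).1 = m
    have h3 : gI I x m = ⟨m, hm⟩ := dif_pos hm
    rw [h3]

end general

section ball

variable {E H : Type*} [NormedAddCommGroup E] [InnerProductSpace ℝ E] [FiniteDimensional ℝ E]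
  [TopologicalSpace H]
  (I : ModelWithCorners ℝ E H) {M : Type*} [TopologicalSpace M] [ChartedSpace H M]

theorem int_iff (hE : Nontrivial E) [IsManifold I ∞ M] (h : M ≃ₜ closedBall (0 : E) 1) (x : M) :
    x ∈ I.interior M ↔ ‖(h x : E)‖ < 1 := by
  set e := chartAt H x with he
  have hx : x ∈ e.source := mem_chart_source H x
  constructor
  · intro hxi
    have h1 : e.extend I x ∈ interior (e.extend I).target :=
      (mem_int_iff I (chart_mem_atlas H x) hx).1 hxi
    obtain ⟨r, hr, hball⟩ := nhds_basis_closedBall.mem_iff.1 (isOpen_interior.mem_nhds h1)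
    have hb' : closedBall (e.extend I x) r ⊆ (e.extend I).target := hball.trans interior_subset
    have hio := Pool.Agent.Helper514.IoD.image_mem_nhds
      (fun z => (h ((e.extend I).symm z) : E)) (e.extend I x) r hr
      ((continuous_subtype_val.comp h.continuous).comp_continuousOn
        (e.continuousOn_extend_symm.mono hb'))
      (fun a ha b hb hab => (e.extend I).symm.injOn (hb' ha) (hb' hb)
        (h.injective (Subtype.ext hab)))
    have h2 : (e.extend I).symm (e.extend I x) = x :=
      (e.extend I).left_inv (by rw [e.extend_source]; exact hx)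
    simp only [h2] at hio
    have h3 : (h x : E) ∈ interior (closedBall (0 : E) 1) := by
      rw [mem_interior_iff_mem_nhds]
      refine mem_of_superset hio ?_
      rintro _ ⟨z, -, rfl⟩
      exact (h ((e.extend I).symm z)).2
    rw [interior_closedBall (0 : E) one_ne_zero, mem_ball_zero_iff] at h3
    exact h3
  · intro hlt
    -- the inverse map near `h x`
    classical
    set k : E → M := fun y => if hy : y ∈ closedBall (0 : E) 1 then h.symm ⟨y, hy⟩ else x with hk
    have hkb : ∀ y (hy : y ∈ closedBall (0 : E) 1), k y = h.symm ⟨y, hy⟩ := fun y hy => dif_pos hy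
    have hkc : ContinuousOn k (closedBall (0 : E) 1) := by
      rw [continuousOn_iff_continuous_restrict]
      refine h.symm.continuous.congr fun y => ?_
      exact (hkb y.1 y.2).symm
    have hkx : k (h x : E) = x := by
      rw [hkb _ (h x).2]
      exact h.symm_apply_apply x
    have hmem : (h x : E) ∈ ball (0 : E) 1 := by rwa [mem_ball_zero_iff]
    have hcb : closedBall (0 : E) 1 ∈ 𝓝 (h x : E) :=
      mem_of_superset (isOpen_ball.mem_nhds hmem) ball_subset_closedBall
    have hka : ContinuousAt k (h x : E) := hkc.continuousAt hcb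
    have hsrc : k ⁻¹' e.source ∈ 𝓝 (h x : E) :=
      hka.preimage_mem_nhds (by rw [hkx]; exact e.open_source.mem_nhds hx)
    obtain ⟨r, hr, hball⟩ := nhds_basis_closedBall.mem_iff.1 (inter_mem hcb hsrc)
    have hio := Pool.Agent.Helper514.IoD.image_mem_nhds
      (fun y => e.extend I (k y)) (h x : E) r hr
      (e.continuousOn_extend.comp (hkc.mono fun y hy => (hball hy).1) fun y hy => by
        rw [e.extend_source]; exact (hball hy).2)
      (fun a ha b hb hab => by
        have h1 : k a = k b := (e.extend I).injOn (by rw [e.extend_source]; exact (hball ha).2)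
          (by rw [e.extend_source]; exact (hball hb).2) hab
        rw [hkb a (hball ha).1, hkb b (hball hb).1] at h1
        exact congrArg Subtype.val (h.symm.injective h1))
    simp only [hkx] at hio
    show extChartAt I x x ∈ interior (range I)
    rw [mem_interior_iff_mem_nhds]
    refine mem_of_superset hio ?_
    rintro _ ⟨y, -, rfl⟩
    exact ⟨e (k y), rfl⟩

/-- the homeomorphism of the interior onto the Euclidean space -/
def HH (hE : Nontrivial E) [IsManifold I ∞ M] (h : M ≃ₜ closedBall (0 : E) 1) :
    I.interior M ≃ₜ E where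
  toFun x := OpenPartialHomeomorph.univUnitBall.symm (h x.1 : E)
  invFun y := ⟨h.symm ⟨OpenPartialHomeomorph.univUnitBall y, ball_subset_closedBall
    (OpenPartialHomeomorph.univUnitBall.map_source (mem_univ y))⟩, by
      rw [int_iff I hE h, h.apply_symm_apply, ← mem_ball_zero_iff]
      exact OpenPartialHomeomorph.univUnitBall.map_source (mem_univ y)⟩
  left_inv x := by
    refine Subtype.ext ?_
    have h1 : (h x.1 : E) ∈ ball (0 : E) 1 := by
      rw [mem_ball_zero_iff]; exact (int_iff I hE h x.1).1 x.2
    have h2 : OpenPartialHomeomorph.univUnitBall (OpenPartialHomeomorph.univUnitBall.symm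
        (h x.1 : E)) = (h x.1 : E) := OpenPartialHomeomorph.univUnitBall.right_inv h1
    simp only [h2]
    exact h.symm_apply_apply x.1
  right_inv y := by
    simp only [Homeomorph.apply_symm_apply]
    exact OpenPartialHomeomorph.univUnitBall.left_inv (mem_univ y)
  continuous_toFun := by
    rw [continuous_iff_continuousAt]
    intro x
    have h1 : (h x.1 : E) ∈ ball (0 : E) 1 := by
      rw [mem_ball_zero_iff]; exact (int_iff I hE h x.1).1 x.2
    have h2 : ContinuousAt (fun x : I.interior M => (h x.1 : E)) x :=
      (continuous_subtype_val.comp (h.continuous.comp continuous_subtype_val)).continuousAt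
    exact ContinuousAt.comp (g := OpenPartialHomeomorph.univUnitBall.symm)
      (OpenPartialHomeomorph.univUnitBall.symm.continuousAt h1) h2
  continuous_invFun := by
    refine Continuous.subtype_mk (h.symm.continuous.comp (Continuous.subtype_mk ?_ _)) _
    exact OpenPartialHomeomorph.contDiff_univUnitBall (n := 0).continuous

theorem contMDiff_HH (hE : Nontrivial E) [IsManifold I ∞ M] (h : M ≃ₜ closedBall (0 : E) 1)
    (hs : ContMDiff I 𝓘(ℝ, E) ∞ (fun x => (h x : E))) :
    @ContMDiff ℝ _ E _ _ E _ 𝓘(ℝ, E) (I.interior M) _ (csI I) E _ _ E _ 𝓘(ℝ, E) E _ _ ∞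
      (HH I hE h) := by
  let := csI (M := M) I
  intro x
  have h1 : (h x.1 : E) ∈ ball (0 : E) 1 := by
    rw [mem_ball_zero_iff]; exact (int_iff I hE h x.1).1 x.2
  have h2 : ContMDiffAt 𝓘(ℝ, E) 𝓘(ℝ, E) ∞ (fun x : I.interior M => (h x.1 : E)) x :=
    (hs x.1).comp x (contMDiff_val I x)
  have h3 : ContMDiffAt 𝓘(ℝ, E) 𝓘(ℝ, E) ∞ (OpenPartialHomeomorph.univUnitBall.symm : E → E)
      (h x.1 : E) :=
    ((OpenPartialHomeomorph.contDiffOn_univUnitBall_symm (n := ⊤)).contDiffAt
      (isOpen_ball.mem_nhds h1)).contMDiffAt
  exact ContMDiffAt.comp (g := (OpenPartialHomeomorph.univUnitBall.symm : E → E)) x h3 h2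

end ball

theorem boundary : Pool.Agent.Y522.StBoundary := by
  intro M _ _ _ h hs
  refine ⟨(𝓡∂ 4).interior M, inferInstance, csI (𝓡∂ 4), mfI (𝓡∂ 4), Subtype.val,
    Subtype.val_injective, Subtype.range_val, fun x => ldiff_val (𝓡∂ 4) x,
    HH (𝓡∂ 4) inferInstance h, contMDiff_HH (𝓡∂ 4) inferInstance h hs⟩

end Pool.Agent.Y833.SH
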